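import Pool.Agent.H683.MC.Main

/-!
# EW[1]-hardness of existential model checking would give a subexponential algorithm for 3-SAT

The length of a sentence is the length of its code (a bit string, numbers in binary), as the
length `|x|` of an instance is in the definition of ept-reductions.

If the clique problem has an ept-reduction to p-MC(`Σ₁`) then the satisfiability of 3-CNF formulas
with `m` clauses is decided in time `2 ^ O(m / log m) * |F| ^ O(1)`.

Proof: split the clauses into `g ≈ √m` groups of at most `g` clauses; the graph whose vertices are
the satisfying assignments of the groups has `2 ^ O(g)` vertices, and `F` is satisfiable iff it has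
a clique of `g` vertices. The reduction turns it in time `2 ^ O(g)` into a structure with `2 ^ O(g)`
elements and a sentence of length `O(g)`. A sentence of length `ℓ` has only `O(ℓ / log ℓ)`
different variables, so exhaustive search takes time `2 ^ O(g * g / log g)`.
-/

set_option autoImplicit false

namespace Pool.Agent.Results.MP_2b48c2_lc.HardImpliesFast3Sat

open Pool.Agent.H683.MC Pool.Agent.H633R2

/-- If p-MC(`Σ₁`) is EW[1]-hard under ept-reductions, or if just the parameterized clique problem
is ept-reducible to it, then 3-SAT with `m` clauses is solvable in time
`2 ^ O(m / log m) * |F| ^ O(1)`. -/
theorem result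
    (h : EW1Hard mcParam ModelCheck ∨
      EptReduces (fun x : List (List Bool) × ℕ => x.2) HasClique mcParam ModelCheck) :
    ThreeSatFast := by
  rcases h with h | h
  · exact Pool.Agent.NPC.H683MC.threeSatFast_of_hard h
  · exact Pool.Agent.NPC.H683MC.threeSatFast_of_ept h

end Pool.Agent.Results.MP_2b48c2_lc.HardImpliesFast3Sat
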